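import Mathlib
import Pool.Agent.N822.HC.Lin
import Pool.Agent.N822.HC.Low2

/-!
The best constant in the weighted Hardy inequality with weight `(1+|x|²)^α`, for every `n ≥ 3`
and every real `α`.
-/

set_option autoImplicit false

open MeasureTheory Set Filter Topology Real Metric
open scoped RealInnerProductSpace ContDiff Gradient

noncomputable section

namespace Pool.Agent.Results.MP_5b99fd_an.BestConstant

open Pool.Agent.N822.HC

/-- `u` is admissible: a nonzero smooth function of compact support on `ℝⁿ` which, when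
`α < -(n-2)/2`, satisfies `∫ (1+|x|²)^(α-1) u(x) dx = 0`. -/
def Admissible (n : ℕ) (α : ℝ) (u : EuclideanSpace ℝ (Fin n) → ℝ) : Prop :=
  ContDiff ℝ ∞ u ∧ HasCompactSupport u ∧ u ≠ 0 ∧
    (α < -((n : ℝ) - 2) / 2 → ∫ x, (1 + ‖x‖ ^ 2) ^ (α - 1) * u x = 0)

/-- the quotient `∫ (1+|x|²)^α |∇u|² dx / ∫ (1+|x|²)^(α-1) u² dx` -/
def quotient (n : ℕ) (α : ℝ) (u : EuclideanSpace ℝ (Fin n) → ℝ) : ℝ :=
  (∫ x, (1 + ‖x‖ ^ 2) ^ α * ‖∇ u x‖ ^ 2) / ∫ x, (1 + ‖x‖ ^ 2) ^ (α - 1) * u x ^ 2

/-- the value of the best constant -/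
def value (n : ℕ) (α : ℝ) : ℝ :=
  if 1 + (n : ℝ) / 2 < α then 2 * n * (α - 1)
  else if -((n : ℝ) + 2) / 2 ≤ α then ((n : ℝ) - 2 + 2 * α) ^ 2 / 4
  else if -(n : ℝ) ≤ α then -4 * α - 2 * n
  else -2 * α

variable {n : ℕ}

theorem good {u : EuclideanSpace ℝ (Fin n) → ℝ} (h1 : ContDiff ℝ ∞ u) (h2 : HasCompactSupport u) :
    ∃ R, Good u R := by
  obtain ⟨R, hR⟩ := h2.isCompact.isBounded.subset_closedBall (0 : EuclideanSpace ℝ (Fin n))
  have hz : ∀ x, max R 0 + 1 ≤ ‖x‖ → x ∉ tsupport u := fun x hx h => by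
    have := hR h
    rw [mem_closedBall_zero_iff] at this
    have := le_max_left R 0
    linarith
  refine ⟨max R 0 + 1, h1.of_le (by exact_mod_cast le_top), ?_, fun x hx => ?_, fun x hx => ?_⟩
  · have := le_max_right R 0
    linarith
  · exact image_eq_zero_of_notMem_tsupport (hz x hx)
  · have h := hz x hx
    have : x ∉ tsupport (fderiv ℝ u) := fun h' => h (tsupport_fderiv_subset ℝ h')
    exact image_eq_zero_of_notMem_tsupport this

theorem norm_grad (u : EuclideanSpace ℝ (Fin n) → ℝ) (x : EuclideanSpace ℝ (Fin n)) :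
    ‖∇ u x‖ = ‖fderiv ℝ u x‖ := by
  unfold gradient
  exact LinearIsometryEquiv.norm_map _ _

/-- **The best constant in the weighted Hardy inequality.** For every `n ≥ 3` and every real `α`
the infimum of the quotient over the admissible functions is `value n α`. -/
theorem result (n : ℕ) (hn : 3 ≤ n) (α : ℝ) :
    IsGLB {q : ℝ | ∃ u, Admissible n α u ∧ q = quotient n α u} (value n α) := by
  have hfr : Module.finrank ℝ (EuclideanSpace ℝ (Fin n)) = n := finrank_euclideanSpace_fin
  have hn3 : (3:ℝ) ≤ n := by exact_mod_cast hn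
  constructor
  · rintro q ⟨u, ⟨h1, h2, h3, h4⟩, rfl⟩
    obtain ⟨R, hu⟩ := good h1 h2
    have hpos := mass_pos h1.continuous h2 h3 (α - 1)
    unfold quotient
    rw [le_div_iff₀ hpos]
    simp_rw [norm_grad]
    unfold value
    have hnt : Nontrivial (EuclideanSpace ℝ (Fin n)) :=
      Module.nontrivial_of_finrank_pos (R := ℝ) (by omega)
    have hfree := fun (β lam : ℝ) => hu.low_free (α := α) (β := β) (lam := lam)
    have hmean := fun (γ lam : ℝ) => hu.low_mean (by omega) (α := α) (γ := γ) (lam := lam)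
    rw [hfr] at hfree hmean
    split_ifs with c1 c2 c3
    · exact hfree (α - 1) _ (by linarith) (by nlinarith)
    · rw [not_lt] at c1
      rcases lt_or_ge α (-((n : ℝ) - 2) / 2) with hα | hα
      · have hs0 : 0 < ((n : ℝ) - 2 + 2 * α) ^ 2 / 4 := by
          have : (n : ℝ) - 2 + 2 * α < 0 := by linarith
          have := mul_pos_of_neg_of_neg this this
          nlinarith
        refine hmean (1 + ((n : ℝ) - 2 + 2 * α) / 4) _ hs0 ?_ ?_ ?_ (h4 hα)
        · nlinarith
        · nlinarith
        · nlinarith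
      · refine hfree (((n : ℝ) - 2 + 2 * α) / 4) _ ?_ ?_
        · nlinarith
        · nlinarith
    · rw [not_le] at c2
      refine hmean 0 _ (by linarith) (by linarith) (by linarith) (by linarith)
        (h4 (by linarith))
    · rw [not_le] at c2 c3
      refine hmean 0 _ (by linarith) (by linarith) (by linarith) (by linarith)
        (h4 (by linarith))
  · intro q hq
    have hLB : LB (EuclideanSpace ℝ (Fin n)) (α < -((n : ℝ) - 2) / 2) α q := by
      intro v h1 h2 h3 h4
      have h := hq ⟨v, ⟨h1, h2, h3, h4⟩, rfl⟩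
      unfold quotient at h
      simp_rw [norm_grad] at h
      exact h
    have hA := fun h => upper_A (P := α < -((n : ℝ) - 2) / 2) h hLB
    have hB := fun h => upper_B (P := α < -((n : ℝ) - 2) / 2) h hLB (by omega)
    have hC := upper_C hLB (by omega)
    have hD := upper_D hLB (by omega)
    have hE := upper_E hLB (by omega)
    rw [hfr] at hA hB hC hD hE
    unfold value
    split_ifs with c1 c2 c3
    · exact hA (by linarith) c1
    · rcases lt_or_ge α (-((n : ℝ) - 2) / 2) with hα | hα
      · exact hC (by linarith)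
      · exact hB (by linarith)
    · rw [not_le] at c2
      exact hD c2
    · rw [not_le] at c3
      exact hE c3

end Pool.Agent.Results.MP_5b99fd_an.BestConstant
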